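import Pool.Agent.LibX1.Hodge

/-!
Hermitian matrices over a rational algebra with positive involution.
-/

set_option autoImplicit false

namespace Pool.Agent.LibG4

open Pool.Agent.LibX1 Matrix

/-- The involution is positive, in the form used here. -/
def Pos (B : Type) [Ring B] [StarRing B] [Algebra ℚ B] : Prop :=
  ∀ (ι : Type) [Fintype ι] (c : ι → ℚ) (b : ι → B), (∀ k, 0 < c k) →
    ∑ k, c k • (star (b k) * b k) = 0 → ∀ k, b k = 0

theorem pos_of_form {B : Type} [Ring B] [StarRing B] [Algebra ℚ B] (τ : B →ₗ[ℚ] ℚ)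
    (hτ : ∀ b : B, b ≠ 0 → 0 < τ (star b * b)) : Pos B := by
  intro ι _ c b hc h k
  have h1 := congrArg τ h
  rw [map_sum, map_zero] at h1
  have h0 : ∀ b : B, 0 ≤ τ (star b * b) := fun b => tau_nonneg hτ b
  have h2 := (Finset.sum_eq_zero_iff_of_nonneg (fun i _ => by
    rw [map_smul, smul_eq_mul]
    exact mul_nonneg (hc i).le (h0 _))).1 h1 k (Finset.mem_univ k)
  by_contra hb
  rw [map_smul, smul_eq_mul] at h2
  exact (mul_pos (hc k) (hτ _ hb)).ne' h2

theorem ratCast_act {B : Type} [Ring B] [Algebra ℚ B] {K T : Type} [Field K] [CharZero K]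
    [AddCommGroup T] [Module K T] (π : B →+* Module.End K T) (c : ℚ) (b : B) :
    π (c • b) = (c : K) • π b := by
  have h1 : π.comp (algebraMap ℚ B) = (algebraMap K (Module.End K T)).comp (algebraMap ℚ K) :=
    Subsingleton.elim _ _
  have h2 : π (algebraMap ℚ B c) = algebraMap K (Module.End K T) (c : K) := by
    have := RingHom.congr_fun h1 c
    simpa using this
  rw [Algebra.smul_def, map_mul, h2, ← Algebra.smul_def]

/-- A solution of the equations of a positive semidefinite Hermitian matrix `∑ c v* v` is killed by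
all rows `v`. -/
theorem kernel_eq {B : Type} [Ring B] [StarRing B] [Algebra ℚ B] [Module.Finite ℚ B] (hB : Pos B)
    {K T : Type} [Field K] [CharZero K] [AddCommGroup T] [Module K T]
    (π : B →+* Module.End K T) {ι E : Type} [Fintype ι] [Fintype E] (c : E → ℚ)
    (hc : ∀ e, 0 < c e) (v : E → ι → B) (x : ι → T)
    (h : ∀ j, ∑ e, (c e : K) • π (star (v e j)) (∑ i, π (v e i) (x i)) = 0) (e : E) :
    ∑ i, π (v e i) (x i) = 0 := by
  classical
  rcases isEmpty_or_nonempty ι with hι | ⟨⟨j0⟩⟩
  · simp
  obtain ⟨M, hM⟩ : ∃ M : Matrix ι ι B, M = fun j i => ∑ e, c e • (star (v e j) * v e i) := ⟨_, rfl⟩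
  obtain ⟨δ, hδ⟩ : ∃ δ : Matrix ι ι B, δ = fun _ i => v e i := ⟨_, rfl⟩
  have hpos : ∀ x : Matrix ι ι B, star x * x = 0 → x = 0 := by
    intro x hx
    ext j i
    have h1 := congrFun (congrFun hx i) i
    rw [Matrix.mul_apply] at h1
    have h2 := hB ι (fun _ => 1) (fun j => x j i) (fun _ => one_pos) (by
      simpa [Matrix.star_apply] using h1)
    exact h2 j
  have hcond : ∀ X : Matrix ι ι B, M * X = 0 → δ * X = 0 := by
    intro X hX
    have h1 : star X * (M * X) = 0 := by rw [hX, mul_zero]
    have h2 : ∀ i, ∑ e, c e • (star (∑ k, v e k * X k i) * (∑ k, v e k * X k i)) = 0 := by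
      intro i
      have h3 : (star X * (M * X)) i i = 0 := by rw [h1, Matrix.zero_apply]
      rw [Matrix.mul_apply] at h3
      calc ∑ e, c e • (star (∑ k, v e k * X k i) * (∑ k, v e k * X k i)) =
            ∑ e, ∑ j, ∑ k, star (X j i) * ((c e • (star (v e j) * v e k)) * X k i) := by
            refine Finset.sum_congr rfl fun e _ => ?_
            rw [star_sum, Finset.sum_mul_sum, Finset.smul_sum]
            refine Finset.sum_congr rfl fun j _ => ?_
            rw [Finset.smul_sum]
            refine Finset.sum_congr rfl fun k _ => ?_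
            rw [star_mul, smul_mul_assoc, mul_smul_comm]
            simp only [mul_assoc]
        _ = ∑ j, ∑ k, ∑ e, star (X j i) * ((c e • (star (v e j) * v e k)) * X k i) := by
            rw [Finset.sum_comm]
            refine Finset.sum_congr rfl fun j _ => ?_
            rw [Finset.sum_comm]
        _ = ∑ j, (star X) i j * (M * X) j i := by
            refine Finset.sum_congr rfl fun j _ => ?_
            rw [Matrix.mul_apply, Matrix.star_apply, Finset.mul_sum]
            refine Finset.sum_congr rfl fun k _ => ?_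
            rw [hM, Finset.sum_mul, Finset.mul_sum]
        _ = 0 := h3
    ext j i
    rw [Matrix.mul_apply, hδ]
    exact hB E c _ hc (h2 i) e
  obtain ⟨g, hg⟩ := exists_left_mul hpos M δ hcond
  have h1 : ∀ i, v e i = ∑ j, g j0 j * M j i := by
    intro i
    have := congrFun (congrFun hg j0) i
    rw [Matrix.mul_apply] at this
    rw [← this, hδ]
  have h2 : ∀ j, ∑ i, π (M j i) (x i) = 0 := by
    intro j
    rw [← h j]
    calc ∑ i, π (M j i) (x i) = ∑ i, ∑ e, (c e : K) • π (star (v e j)) (π (v e i) (x i)) := by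
          refine Finset.sum_congr rfl fun i _ => ?_
          rw [hM, map_sum, LinearMap.sum_apply]
          refine Finset.sum_congr rfl fun e _ => ?_
          rw [ratCast_act, LinearMap.smul_apply, map_mul, Module.End.mul_apply]
      _ = _ := by
          rw [Finset.sum_comm]
          refine Finset.sum_congr rfl fun e _ => ?_
          rw [map_sum, Finset.smul_sum]
  calc ∑ i, π (v e i) (x i) = ∑ i, ∑ j, π (g j0 j) (π (M j i) (x i)) := by
        refine Finset.sum_congr rfl fun i _ => ?_
        rw [h1 i, map_sum, LinearMap.sum_apply]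
        refine Finset.sum_congr rfl fun j _ => ?_
        rw [map_mul, Module.End.mul_apply]
    _ = ∑ j, π (g j0 j) (∑ i, π (M j i) (x i)) := by
        rw [Finset.sum_comm]
        refine Finset.sum_congr rfl fun j _ => ?_
        rw [map_sum]
    _ = 0 := by
        refine Finset.sum_eq_zero fun j _ => ?_
        rw [h2 j, map_zero]

end Pool.Agent.LibG4
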