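import Pool.Agent.LibX1.Outer
import Pool.Agent.LibX1C.Cycles
import Pool.Agent.LibG4.Pos

/-!
The row of weight `2`: divisor classes, a part `U₀` on which the restriction is an element of a
rational algebra with positive involution, and classes which are compared by similitudes on the
components of the next stratum, with arbitrary dual graph.
-/

set_option autoImplicit false

namespace Pool.Agent.LibG4

open Pool.Agent.LibX1 Pool.Agent.LibX1C Polynomial

/-- `Positive 1` and the same for the subspace `U₀`: there `rho` is the element `δ` of the rational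
algebra `R` with positive involution, and `P (δ x, rho u) = 0` for all `x` if `u ∈ U₀` and
`I (rho z, rho u) = 0` for all `z ∈ U₀`. -/
def PositiveOn {q : ℕ} {K H : Type} [Field K] [AddCommGroup H] [Module K H] (Y : Strata q K H)
    (I : H →ₗ[K] H →ₗ[K] K) (U₀ : Submodule K H) (P : H →ₗ[K] H →ₗ[K] K) (R : Type) [Ring R]
    [StarRing R] (π : R →+* Module.End K H) (δ : R) : Prop :=
  Y.Positive 1 P R π δ ∧ (∀ x ∈ U₀, π δ x = Y.rho x) ∧
    ∀ u ∈ U₀, (∀ z ∈ U₀, I (Y.rho z) (Y.rho u) = 0) → ∀ x, P (π δ x) (Y.rho u) = 0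

/-- `H^2 (Y^(k+1))` is spanned by classes of divisors, `U₀`, the spaces `U i` (`i < c`) and the kernel
of `rho`; the images of `U₀` and of the `U i` are orthogonal to the classes of divisors, and those of
the `U i` are orthogonal to that of `U₀`. `E` is a set of pieces of `H^2 (Y^(k+2))`, orthogonal for the
intersection form `I`; for `x` in `U i`, `res e x` is the component of `rho x` in the piece `e`. On
each `U i` the map `res e` multiplies the form `g` by the rational number `μ e i ≥ 0` (and is `0` if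
`μ e i = 0`). The images of `U i` and `U j` in the piece `e` are equal if `μ e i` and `μ e j` are
not `0`. -/
structure Glue {q : ℕ} {K H : Type} [Field K] [CharZero K] [AddCommGroup H] [Module K H]
    [Module ℚ H] (Y : Strata q K H) (I : H →ₗ[K] H →ₗ[K] K) (A : ℕ → ℕ → Submodule ℚ H) (k : ℕ)
    (U₀ : Submodule K H) {c : ℕ} (U : Fin c → Submodule K H) (g : H →ₗ[K] H →ₗ[K] K)
    {E : Type} [Fintype E] (res : E → Module.End K H) (μ : E → Fin c → ℚ) : Prop where
  split : Y.gr k 2 ≤
    Submodule.span K (A k 1 : Set H) ⊔ U₀ ⊔ (⨆ i, U i) ⊔ LinearMap.ker Y.rho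
  alg₀ : ∀ x ∈ U₀, ∀ y ∈ A (k + 1) 1, I (Y.rho x) y = 0
  alg : ∀ i, ∀ x ∈ U i, ∀ y ∈ A (k + 1) 1, I (Y.rho x) y = 0
  orth₀ : ∀ i, ∀ x ∈ U i, ∀ y ∈ U₀, I (Y.rho x) (Y.rho y) = 0
  rho : ∀ i, ∀ x ∈ U i, Y.rho x = ∑ e, res e x
  orth : ∀ e e', e ≠ e' → ∀ x y, I (res e x) (res e' y) = 0
  nondeg : ∀ i, ∀ y ∈ U i, (∀ x ∈ U i, g x y = 0) → y = 0
  sim : ∀ e i, ∀ x ∈ U i, ∀ y ∈ U i, I (res e x) (res e y) = μ e i * g x y
  nonneg : ∀ e i, 0 ≤ μ e i
  zero : ∀ e i, μ e i = 0 → ∀ x ∈ U i, res e x = 0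
  img : ∀ e i j, μ e i ≠ 0 → μ e j ≠ 0 → (U i).map (res e) = (U j).map (res e)

section

variable {K H : Type} [Field K] [CharZero K] [AddCommGroup H] [Module K H] {c : ℕ}
  (U : Fin c → Submodule K H) {E : Type} (res : E → Module.End K H) (μ : E → Fin c → ℚ)

/-- `Trans i j φ`: `φ : U i → U j` is a composite of comparison maps `t : U l → U j`, given by
`res e (t x) = res e x` for a piece `e` with `μ e l ≠ 0` and `μ e j ≠ 0`. -/
inductive Trans : (i j : Fin c) → (U i →ₗ[K] U j) → Prop
  | refl (i : Fin c) : Trans i i LinearMap.id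
  | step (i l j : Fin c) (e : E) (φ : U i →ₗ[K] U l) (t : U l →ₗ[K] U j) :
      Trans i l φ → μ e l ≠ 0 → μ e j ≠ 0 →
      (∀ x : U l, res e (t x : H) = res e (x : H)) → Trans i j (t ∘ₗ φ)

/-- The comparison maps around the closed paths at `i` lie in (the image of) a finite-dimensional
rational algebra `B` acting on `U i`, whose involution is the adjoint for `g` and is positive:
`τ (star x * x) > 0` for `x ≠ 0`. -/
def PosHol (g : H →ₗ[K] H →ₗ[K] K) (i : Fin c) : Prop :=
  ∃ (B : Type) (_ : Ring B) (_ : StarRing B) (_ : Algebra ℚ B) (_ : Module.Finite ℚ B)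
    (τ : B →ₗ[ℚ] ℚ) (π : B →+* Module.End K (U i)), (∀ x : B, x ≠ 0 → 0 < τ (star x * x)) ∧
    (∀ (x : B) (y z : U i), g (π x y) z = g y (π (star x) z)) ∧
    ∀ θ, Trans U res μ i i θ → ∃ x, π x = θ

end

end Pool.Agent.LibG4
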