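import Pool.Agent.LibG4.Tr

/-!
The transcendental part of the row of weight `2`.
-/

set_option autoImplicit false

namespace Pool.Agent.LibG4

open Pool.Agent.LibX1 Pool.Agent.LibX1C Polynomial

/-- The part `U₀`. -/
theorem PositiveOn.rho_eq_zero {q : ℕ} {K H : Type} [Field K] [AddCommGroup H] [Module K H]
    {Y : Strata q K H} {I : H →ₗ[K] H →ₗ[K] K} {U₀ : Submodule K H} {P : H →ₗ[K] H →ₗ[K] K}
    {R : Type} [Ring R] [StarRing R] [Algebra ℚ R] [Module.Finite ℚ R] {π : R →+* Module.End K H}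
    {δ : R} (h : PositiveOn Y I U₀ P R π δ) {u : H} (hu : u ∈ U₀)
    (h0 : ∀ z ∈ U₀, I (Y.rho z) (Y.rho u) = 0) : Y.rho u = 0 := by
  obtain ⟨⟨hnd, hpos, hadj, -, -⟩, h1, h2⟩ := h
  rw [← h1 u hu]
  apply polMap hpos π P hadj hnd δ u
  intro x
  rw [h1 u hu]
  exact h2 u hu h0 x

namespace Glue

variable {q : ℕ} {K H : Type} [Field K] [CharZero K] [AddCommGroup H] [Module K H]
  [Module ℚ H] {Y : Strata q K H}
  {I : H →ₗ[K] H →ₗ[K] K} {A : ℕ → ℕ → Submodule ℚ H} {k : ℕ} {U₀ : Submodule K H} {c : ℕ}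
  {U : Fin c → Submodule K H} {g : H →ₗ[K] H →ₗ[K] K} {E : Type} [Fintype E]
  {res : E → Module.End K H} {μ : E → Fin c → ℚ}

theorem rho_sum' (h : Glue Y I A k U₀ U g res μ) (z : ∀ i, U i) :
    Y.rho (∑ i, (z i : H)) = ∑ e, res e (∑ i, (z i : H)) := by
  rw [map_sum, Finset.sum_congr rfl (fun i _ => h.rho i _ (z i).2), Finset.sum_comm]
  exact Finset.sum_congr rfl fun e _ => (map_sum _ _ _).symm

theorem rho_sum (h : Glue Y I A k U₀ U g res μ) (z z' : ∀ i, U i) :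
    I (Y.rho (∑ i, (z i : H))) (Y.rho (∑ i, (z' i : H))) =
      ∑ e, I (res e (∑ i, (z i : H))) (res e (∑ i, (z' i : H))) := by
  rw [h.rho_sum' z, h.rho_sum' z', map_sum I, LinearMap.sum_apply]
  apply Finset.sum_congr rfl
  intro e _
  rw [map_sum, Finset.sum_eq_single e]
  · intro e' _ hne
    exact h.orth e e' (Ne.symm hne) _ _
  · intro h0
    exact absurd (Finset.mem_univ e) h0

/-- A row of the Hermitian matrix, with its factor. -/
theorem row (h : Glue Y I A k U₀ U g res μ) {i0 : Fin c} {B : Type} [Ring B]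
    (π : B →+* Module.End K (U i0)) (hπ : ∀ θ, Trans U res μ i0 i0 θ → ∃ x, π x = θ)
    (Φ : ∀ j : {j : Fin c // ∃ φ, Trans U res μ i0 j φ}, U i0 →ₗ[K] U j.1)
    (hΦ : ∀ j, Trans U res μ i0 j.1 (Φ j))
    (Ψ : ∀ j : {j : Fin c // ∃ φ, Trans U res μ i0 j φ}, U j.1 →ₗ[K] U i0)
    (hΨ : ∀ j, Trans U res μ j.1 i0 (Ψ j)) (hΦΨ : ∀ j y, Φ j (Ψ j y) = y)
    [Fintype {j : Fin c // ∃ φ, Trans U res μ i0 j φ}] (e : E) :
    ∃ (r : ℚ) (v : {j : Fin c // ∃ φ, Trans U res μ i0 j φ} → B), 0 < r ∧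
      (∀ z z' : ∀ i, U i, (∀ i, (¬ ∃ φ, Trans U res μ i0 i φ) → z i = 0) →
        I (res e (∑ i, (z i : H))) (res e (∑ i, (z' i : H))) =
          r * g (∑ j, π (v j) (Ψ j (z j.1)) : U i0) (∑ j, π (v j) (Ψ j (z' j.1)) : U i0)) ∧
      ∀ i, μ e i ≠ 0 → (∃ φ, Trans U res μ i0 i φ) → ∀ z : ∀ i, U i,
        ∑ j, π (v j) (Ψ j (z j.1)) = 0 → res e (∑ i, (z i : H)) = 0 := by
  classical
  by_cases hex : ∃ i, μ e i ≠ 0 ∧ ∃ φ, Trans U res μ i0 i φ
  · obtain ⟨l, hl, hr⟩ := hex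
    -- all ends of `e` are reachable
    have hall : ∀ i, μ e i ≠ 0 → ∃ φ, Trans U res μ i0 i φ := by
      intro i hi
      obtain ⟨φ, hφ⟩ := hr
      obtain ⟨t, ht⟩ := h.exists_step hl hi
      exact ⟨_, hφ.comp (Trans.single hl hi ht)⟩
    obtain ⟨s, hs, hsim⟩ := h.trans_sim (hΦ ⟨l, hr⟩)
    have hv : ∀ j : {j : Fin c // ∃ φ, Trans U res μ i0 j φ}, ∃ v : B,
        ∀ x : U j.1, res e (x : H) = res e (Φ ⟨l, hr⟩ (π v (Ψ j x))) := by
      intro j
      by_cases hj : μ e j.1 = 0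
      · refine ⟨0, fun x => ?_⟩
        rw [map_zero, LinearMap.zero_apply, map_zero, Submodule.coe_zero, map_zero]
        exact h.zero e _ hj _ x.2
      · obtain ⟨t, ht⟩ := h.exists_step hj hl
        obtain ⟨v, hv⟩ := hπ _ (((hΦ j).comp (Trans.single hj hl ht)).comp (hΨ ⟨l, hr⟩))
        refine ⟨v, fun x => ?_⟩
        rw [hv, LinearMap.comp_apply, LinearMap.comp_apply, hΦΨ, hΦΨ, ht]
    choose v hv using hv
    have hres : ∀ z : ∀ i, U i, res e (∑ i, (z i : H)) =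
        res e (Φ ⟨l, hr⟩ (∑ j, π (v j) (Ψ j (z j.1)))) := by
      intro z
      rw [map_sum, map_sum, Submodule.coe_sum, map_sum]
      have h1 : ∑ i, res e (z i : H) = ∑ i ∈ Finset.univ.filter
          (fun i => ∃ φ, Trans U res μ i0 i φ), res e (z i : H) := by
        symm
        apply Finset.sum_subset (Finset.filter_subset _ _)
        intro i _ hi
        apply h.zero e i ?_ _ (z i).2
        by_contra h0
        exact hi (Finset.mem_filter.2 ⟨Finset.mem_univ i, hall i h0⟩)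
      rw [h1, Finset.sum_congr rfl (fun j _ => (hv j (z j.1)).symm)]
      exact Finset.sum_subtype (Finset.univ.filter (fun i => ∃ φ, Trans U res μ i0 i φ))
        (fun i => by simp) (fun i => res e (z i : H))
    refine ⟨μ e l * s, v, mul_pos (lt_of_le_of_ne (h.nonneg e _) (Ne.symm hl)) hs, ?_, ?_⟩
    · intro z z' _
      rw [hres, hres, h.sim e l _ (Φ ⟨l, hr⟩ _).2 _ (Φ ⟨l, hr⟩ _).2, hsim]
      push_cast
      ring
    · intro _ _ _ z hz
      rw [hres, hz, map_zero, Submodule.coe_zero, map_zero]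
  · -- nothing reachable
    refine ⟨1, fun _ => 0, one_pos, ?_, ?_⟩
    · intro z z' hz
      have h4 : res e (∑ i, (z i : H)) = 0 := by
        rw [map_sum]
        apply Finset.sum_eq_zero
        intro i _
        by_cases hi : μ e i = 0
        · exact h.zero e i hi _ (z i).2
        · rw [hz i (fun hr => hex ⟨i, hi, hr⟩)]
          simp
      rw [h4]
      simp
    · intro i hi hr
      exact absurd ⟨i, hi, hr⟩ hex

/-- The glued part of the row of weight `2`. -/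
theorem rho_eq_zero (h : Glue Y I A k U₀ U g res μ) (hol : ∀ i, PosHol U res μ g i)
    (u : ∀ i, U i)
    (hu : ∀ z : ∀ i, U i, I (Y.rho (∑ i, (z i : H))) (Y.rho (∑ i, (u i : H))) = 0) :
    Y.rho (∑ i, (u i : H)) = 0 := by
  classical
  rw [h.rho_sum' u]
  apply Finset.sum_eq_zero
  intro e0 _
  by_cases h0 : ∃ i, μ e0 i ≠ 0
  swap
  · push Not at h0
    rw [map_sum]
    exact Finset.sum_eq_zero fun i _ => h.zero e0 i (h0 i) _ (u i).2
  obtain ⟨i0, hi0⟩ := h0
  obtain ⟨B, _, _, _, _, τ, π, hτ, hadj, hπ⟩ := hol i0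
  have hΦ : ∀ j : {j : Fin c // ∃ φ, Trans U res μ i0 j φ},
      Trans U res μ i0 j.1 j.2.choose := fun j => j.2.choose_spec
  choose Ψ hΨ hΨΦ hΦΨ using fun j => h.trans_inv (hΦ j)
  choose r v hr hrow hrel using h.row π hπ (fun j => j.2.choose) hΦ Ψ hΨ hΦΨ
  have key : ∀ j : {j : Fin c // ∃ φ, Trans U res μ i0 j φ},
      ∑ e, (r e : K) • π (star (v e j)) (∑ i, π (v e i) (Ψ i (u i.1))) = 0 := by
    intro j
    apply Subtype.ext
    apply h.nondeg i0 _ (Subtype.property _)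
    intro x hx
    have h1 := hu (fun i => if hi : i = j.1 then hi ▸ (j.2.choose ⟨x, hx⟩) else 0)
    have h2 : ∀ i, (¬ ∃ φ, Trans U res μ i0 i φ) →
        (fun i => if hi : i = j.1 then hi ▸ (j.2.choose ⟨x, hx⟩) else 0 : ∀ i, U i) i = 0 := by
      intro i hi
      have h3 : i ≠ j.1 := by
        rintro rfl
        exact hi j.2
      simp only [dif_neg h3]
    rw [h.rho_sum, Finset.sum_congr rfl (fun e _ => hrow e _ u h2)] at h1
    have h3 : ∀ e, (∑ i : {j : Fin c // ∃ φ, Trans U res μ i0 j φ},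
        π (v e i) (Ψ i (if hi : i.1 = j.1 then hi ▸ (j.2.choose ⟨x, hx⟩) else 0)) : U i0) =
        π (v e j) ⟨x, hx⟩ := by
      intro e
      rw [Finset.sum_eq_single j]
      · rw [dif_pos rfl, hΨΦ]
      · intro i _ hi
        rw [dif_neg (fun h4 => hi (Subtype.ext h4)), map_zero, map_zero]
      · intro h4
        exact absurd (Finset.mem_univ _) h4
    simp only [h3] at h1
    rw [← h1, Submodule.coe_sum, map_sum]
    apply Finset.sum_congr rfl
    intro e _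
    rw [Submodule.coe_smul, map_smul, smul_eq_mul]
    congr 1
    exact (hadj (v e j) ⟨x, hx⟩ _).symm
  exact hrel e0 i0 hi0 ⟨_, Trans.refl i0⟩ u
    (kernel_eq (pos_of_form τ hτ) π r hr v (fun i => Ψ i (u i.1)) key e0)

/-- The row of weight `2`. -/
theorem row2 [IsScalarTower ℚ K H] {L : Module.End K H} {n : ℕ} (hn : k + 3 ≤ n)
    (hA : Cycles n Y L I A) (h : Glue Y I A k U₀ U g res μ)
    {P : H →ₗ[K] H →ₗ[K] K} {R : Type} [Ring R] [StarRing R] [Algebra ℚ R] [Module.Finite ℚ R]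
    {π : R →+* Module.End K H} {δ : R} (hP : PositiveOn Y I U₀ P R π δ)
    (hol : ∀ i, PosHol U res μ g i)
    {y : H} (hy : y ∈ Y.gr k 2) (h0 : Y.gamma (Y.rho y) = 0) :
    ∃ f ∈ Y.gr (k + 2) 0, Y.rho f = 0 ∧ Y.gamma f = Y.rho y := by
  have horth : ∀ x, I (Y.rho x) (Y.rho y) = 0 := by
    intro x
    rw [hA.adj, h0, map_zero]
  obtain ⟨y', hy', z', hz', hyz⟩ := Submodule.mem_sup.1 (h.split hy)
  obtain ⟨y'', hy'', w, hw, hy2⟩ := Submodule.mem_sup.1 hy'
  obtain ⟨D, hD, v, hv, hDv⟩ := Submodule.mem_sup.1 hy''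
  have hz0 : Y.rho z' = 0 := hz'
  obtain ⟨u, hu⟩ : ∃ u : ∀ i, U i, ∑ i, (u i : H) = w := by
    have h1 := (Submodule.mem_iSup_iff_exists_finsupp U w).1 hw
    obtain ⟨f, hf, hf2⟩ := h1
    refine ⟨fun i => ⟨f i, hf i⟩, ?_⟩
    rw [← hf2, Finsupp.sum_fintype _ _ (fun _ => rfl)]
  have hy1 : Y.rho y = Y.rho D + Y.rho v + Y.rho w := by
    rw [← hyz, map_add, hz0, add_zero, ← hy2, map_add, ← hDv, map_add]
  have hspan : ∀ x, (∀ y ∈ A (k + 1) 1, I x y = 0) → I x (Y.rho D) = 0 := by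
    intro x hx
    have h1 : Submodule.span K (A k 1 : Set H) ≤ LinearMap.ker (I x ∘ₗ Y.rho) := by
      rw [Submodule.span_le]
      intro d hd
      rw [SetLike.mem_coe, LinearMap.mem_ker, LinearMap.comp_apply]
      exact hx _ (hA.rho k 1 d hd)
    exact h1 hD
  have hsum : ∀ (z : ∀ i, U i) (t : H), (∀ i, ∀ x ∈ U i, I (Y.rho x) t = 0) →
      I (Y.rho (∑ i, (z i : H))) t = 0 := by
    intro z t ht
    rw [map_sum, map_sum, LinearMap.sum_apply]
    exact Finset.sum_eq_zero fun i _ => ht i _ (z i).2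
  have hρv : Y.rho v = 0 := by
    apply hP.rho_eq_zero hv
    intro z hz
    have h1 := horth z
    rw [hy1, map_add, map_add, hspan _ (h.alg₀ z hz), zero_add, ← hu, hA.symm (Y.rho z)
      (Y.rho (∑ i, (u i : H))), hsum u _ (fun i x hx => h.orth₀ i x hx z hz), add_zero] at h1
    exact h1
  have hρw : Y.rho w = 0 := by
    rw [← hu]
    apply h.rho_eq_zero hol u
    intro z
    have h1 := horth (∑ i, (z i : H))
    rw [hy1, hρv, add_zero, map_add, hspan _ (fun t ht => hsum z t (fun i x hx => h.alg i x hx t ht)),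
      zero_add, ← hu] at h1
    exact h1
  have hρy : Y.rho y = Y.rho D := by rw [hy1, hρw, hρv, add_zero, add_zero]
  obtain ⟨f, hf, h1, h2⟩ := hA.row2K hn hD (fun x _ => by
    rw [← hρy]
    exact horth x)
  refine ⟨f, ?_, h1, by rw [h2, hρy]⟩
  have h3 : Submodule.span K (A (k + 2) 0 : Set H) ≤ Y.gr (k + 2) 0 := by
    rw [Submodule.span_le]
    intro x hx
    exact hA.deg (k + 2) 0 x hx
  exact h3 hf

end Glue

end Pool.Agent.LibG4
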