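import Pool.Agent.LibG4.Glue

/-!
The comparison maps along paths.
-/

set_option autoImplicit false

namespace Pool.Agent.LibG4

open Pool.Agent.LibX1 Pool.Agent.LibX1C Polynomial

/-- A linear map whose range is contained in the range of an injective one factors. -/
theorem exists_factor {K A B H : Type*} [Field K] [AddCommGroup A] [Module K A] [AddCommGroup B]
    [Module K B] [AddCommGroup H] [Module K H] (r : A →ₗ[K] H) (s : B →ₗ[K] H)
    (hs : Function.Injective s) (h : ∀ x, ∃ y, s y = r x) : ∃ t : A →ₗ[K] B, ∀ x, s (t x) = r x := by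
  obtain ⟨p, hp⟩ := LinearMap.exists_leftInverse_of_injective s (LinearMap.ker_eq_bot.2 hs)
  refine ⟨p ∘ₗ r, fun x => ?_⟩
  obtain ⟨y, hy⟩ := h x
  rw [LinearMap.comp_apply, ← hy]
  have h1 := LinearMap.congr_fun hp y
  rw [LinearMap.comp_apply, LinearMap.id_apply] at h1
  rw [h1]

section

variable {K H : Type} [Field K] [CharZero K] [AddCommGroup H] [Module K H] {c : ℕ}
  {U : Fin c → Submodule K H} {E : Type} {res : E → Module.End K H} {μ : E → Fin c → ℚ}

theorem Trans.comp {i j k : Fin c} {φ : U i →ₗ[K] U j} {ψ : U j →ₗ[K] U k}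
    (h : Trans U res μ i j φ) (h' : Trans U res μ j k ψ) :
    Trans U res μ i k (ψ ∘ₗ φ) := by
  induction h' with
  | refl => exact h
  | step l j e ψ t hψ h1 h2 h3 ih =>
    rw [LinearMap.comp_assoc]
    exact Trans.step i l j e _ t ih h1 h2 h3

theorem Trans.single {i j : Fin c} {e : E} {t : U i →ₗ[K] U j} (h1 : μ e i ≠ 0)
    (h2 : μ e j ≠ 0) (h3 : ∀ x : U i, res e (t x : H) = res e (x : H)) :
    Trans U res μ i j t :=
  Trans.step i i j e LinearMap.id t (Trans.refl i) h1 h2 h3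

end

namespace Glue

variable {q : ℕ} {K H : Type} [Field K] [CharZero K] [AddCommGroup H] [Module K H]
  [Module ℚ H] {Y : Strata q K H}
  {I : H →ₗ[K] H →ₗ[K] K} {A : ℕ → ℕ → Submodule ℚ H} {k : ℕ} {U₀ : Submodule K H} {c : ℕ}
  {U : Fin c → Submodule K H} {g : H →ₗ[K] H →ₗ[K] K} {E : Type} [Fintype E]
  {res : E → Module.End K H} {μ : E → Fin c → ℚ}

theorem inj (h : Glue Y I A k U₀ U g res μ) {e : E} {i : Fin c} (hμ : μ e i ≠ 0) {x : H}
    (hx : x ∈ U i) (h0 : res e x = 0) : x = 0 := by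
  apply h.nondeg i x hx
  intro y hy
  have h1 := h.sim e i y hy x hx
  rw [h0, map_zero] at h1
  have h2 : (μ e i : K) ≠ 0 := by exact_mod_cast hμ
  exact (mul_eq_zero.1 h1.symm).resolve_left h2

theorem ext (h : Glue Y I A k U₀ U g res μ) {e : E} {i : Fin c} (hμ : μ e i ≠ 0) {x y : H}
    (hx : x ∈ U i) (hy : y ∈ U i) (h0 : res e x = res e y) : x = y := by
  rw [← sub_eq_zero]
  apply h.inj hμ ((U i).sub_mem hx hy)
  rw [map_sub, h0, sub_self]

theorem exists_step (h : Glue Y I A k U₀ U g res μ) {e : E} {i j : Fin c} (h1 : μ e i ≠ 0)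
    (h2 : μ e j ≠ 0) :
    ∃ t : U i →ₗ[K] U j, ∀ x : U i, res e (t x : H) = res e (x : H) := by
  obtain ⟨t, ht⟩ := exists_factor ((res e).domRestrict (U i)) ((res e).domRestrict (U j))
    (fun x y hxy => Subtype.ext (h.ext h2 x.2 y.2 hxy)) (fun x => by
      have h3 : res e x ∈ (U j).map (res e) := by
        rw [← h.img e i j h1 h2]
        exact ⟨x, x.2, rfl⟩
      obtain ⟨y, hy, hxy⟩ := h3
      exact ⟨⟨y, hy⟩, hxy⟩)
  exact ⟨t, ht⟩

/-- Comparison maps are similitudes with positive rational factor. -/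
theorem trans_sim (h : Glue Y I A k U₀ U g res μ) {i j : Fin c} {φ : U i →ₗ[K] U j}
    (hφ : Trans U res μ i j φ) :
    ∃ s : ℚ, 0 < s ∧ ∀ x y : U i, g (φ x) (φ y) = (s : K) * g x y := by
  induction hφ with
  | refl => exact ⟨1, one_pos, fun x y => by simp⟩
  | step l j e φ t hφ h1 h2 h3 ih =>
    obtain ⟨s, hs, hsim⟩ := ih
    have p1 := lt_of_le_of_ne (h.nonneg e _) (Ne.symm h1)
    have p2 := lt_of_le_of_ne (h.nonneg e _) (Ne.symm h2)
    refine ⟨μ e l / μ e j * s, by positivity, fun x y => ?_⟩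
    have h4 := h.sim e j _ (t (φ x)).2 _ (t (φ y)).2
    rw [h3, h3, h.sim e l _ (φ x).2 _ (φ y).2, hsim] at h4
    have h5 : (μ e j : K) ≠ 0 := by exact_mod_cast h2
    rw [LinearMap.comp_apply, LinearMap.comp_apply]
    push_cast
    field_simp
    linear_combination -h4

/-- Comparison maps have inverses. -/
theorem trans_inv (h : Glue Y I A k U₀ U g res μ) {i j : Fin c} {φ : U i →ₗ[K] U j}
    (hφ : Trans U res μ i j φ) :
    ∃ ψ : U j →ₗ[K] U i, Trans U res μ j i ψ ∧ (∀ x, ψ (φ x) = x) ∧ ∀ y, φ (ψ y) = y := by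
  induction hφ with
  | refl => exact ⟨LinearMap.id, Trans.refl _, fun x => rfl, fun x => rfl⟩
  | step l j e φ t hφ h1 h2 h3 ih =>
    obtain ⟨ψ, hψ, h4, h5⟩ := ih
    obtain ⟨t', ht'⟩ := h.exists_step h2 h1
    have h6 : ∀ x, t' (t x) = x := by
      intro x
      apply Subtype.ext
      apply h.ext h1 (t' (t x)).2 x.2
      rw [ht', h3]
    have h7 : ∀ x, t (t' x) = x := by
      intro x
      apply Subtype.ext
      apply h.ext h2 (t (t' x)).2 x.2
      rw [h3, ht']
    refine ⟨ψ ∘ₗ t', (Trans.single h2 h1 ht').comp hψ, fun x => ?_, fun y => ?_⟩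
    · rw [LinearMap.comp_apply, LinearMap.comp_apply, h6, h4]
    · rw [LinearMap.comp_apply, LinearMap.comp_apply, h5, h7]

end Glue

end Pool.Agent.LibG4
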